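import Pool.Agent.H15.G.R_seed8.Y205.FW.SurWin
import Pool.Agent.H15.G.R_seed8.Y205.FW.EmpWin

/-! The corank of a leaf. -/

set_option autoImplicit false

namespace Pool.Agent.Y205.FW

open Finset Pool.Agent.TH176.Nag Pool.Agent.TH603.Sur
open Pool.Agent.Y205.MD
open Pool.Agent.TH387.SH (TF coe_TF card_TF)

theorem two_cond {ι : Type} [Fintype ι] (F : ι → ℕ) : 2 * cond F = ∑ x, F x ^ 2 + ∑ x, F x := by
  unfold Pool.Agent.TH603.Sur.cond
  rw [mul_sum, ← sum_add_distrib]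
  refine sum_congr rfl fun x _ => ?_
  rw [Pool.Agent.TH2.NU.two_choose (F x)]
  ring

theorem leaf_crk (hSeq : StSeq) (hCor : StCorner) (hNod : StNodes) {ι : Type} [Fintype ι]
    {F : ι → ℕ} {μ r d c G0 G1 T X : ℕ} (hμ1 : 1 ≤ μ) (hr1 : 1 ≤ r) (hpos : ∀ x, 1 ≤ F x)
    (hB : ∀ x, F x + 1 ≤ 16 * μ) (hq : (univ.image F).card ≤ 2 * r)
    (hQ : 40000 * r * μ ^ 2 ≤ ∑ x, F x ^ 2) (hd : 40000 * r * μ ^ 2 ≤ d ^ 2)
    (hL : 17 * ∑ x, F x ≤ 136 * X + 4 * G1 + 1071 * (r * μ))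
    (hn : Fintype.card ι ≤ X + 63 * (r * μ)) (hX : 14 * (r * μ) ≤ X)
    (hcd : cond F + G0 = T + G1) (hgain : 56 * X ≤ 2 * (G0 + G1))
    (hT2 : 2 * T ≤ (d + 2) * (d + 3)) (hc : (TF d).card ≤ c + T) :
    crk (TF d) F ≤ c + G0 := by
  classical
  have hc2 := two_cond F
  have hμr : (1 : ℝ) ≤ μ := by exact_mod_cast hμ1
  have hrr : (1 : ℝ) ≤ r := by exact_mod_cast hr1
  have hrμ2 : (μ : ℝ) ^ 2 ≤ r * (μ : ℝ) ^ 2 := le_mul_of_one_le_left (by positivity) hrr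
  -- the bound from emptiness
  obtain ⟨D, hD⟩ : ∃ D : ℝ, D = √(∑ x, (F x : ℝ) ^ 2) := ⟨_, rfl⟩
  have hD0 : 0 ≤ D := by rw [hD]; exact Real.sqrt_nonneg _
  have hD2 : 40000 * ((r : ℝ) * (μ : ℝ) ^ 2) ≤ D ^ 2 := by
    rw [hD, Real.sq_sqrt (sum_nonneg fun p _ => by positivity)]
    have : ((40000 * r * μ ^ 2 : ℕ) : ℝ) ≤ ((∑ x, F x ^ 2 : ℕ) : ℝ) := by exact_mod_cast hQ
    push_cast at this
    linarith
  have hD200 : 200 * (μ : ℝ) ≤ D := by
    refine le_of_sq_le_sq ?_ hD0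
    have e : (200 * (μ : ℝ)) ^ 2 = 40000 * (μ : ℝ) ^ 2 := by ring
    linarith
  have hq' : ((univ.image F).card : ℝ) ≤ 2 * r := by exact_mod_cast hq
  have hemp := crk_emp (F := F) hpos (B := 16 * μ) (fun x => by
      have : ((F x + 1 : ℕ) : ℝ) ≤ ((16 * μ : ℕ) : ℝ) := by exact_mod_cast hB x
      push_cast at this
      linarith) (by linarith) hD (by linarith) (by
      have g1 : (16 * ((univ.image F).card : ℝ) + 8) * (16 * (μ : ℝ)) ^ 2 ≤
          (40 * r) * (16 * (μ : ℝ)) ^ 2 :=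
        mul_le_mul_of_nonneg_right (by linarith) (sq_nonneg _)
      have e1 : (40 * (r : ℝ)) * (16 * (μ : ℝ)) ^ 2 = 10240 * (r * (μ : ℝ) ^ 2) := by ring
      have g2 : (3 / 4 * D) ^ 2 ≤ (D - 1) ^ 2 :=
        pow_le_pow_left₀ (by linarith) (by linarith) 2
      have e2 : (3 / 4 * D) ^ 2 = 9 / 16 * D ^ 2 := by ring
      have g3 : 0 ≤ (r : ℝ) * (μ : ℝ) ^ 2 := by positivity
      linarith) d
  rcases hemp with h0 | h0
  · rw [h0]
    exact Nat.zero_le _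
  by_cases hG : ∑ x, F x ≤ 2 * G1
  · omega
  push Not at hG
  -- independence
  obtain ⟨K, hK⟩ : ∃ K, K = d / (72 * μ) := ⟨_, rfl⟩
  have hK1 : K * (72 * μ) ≤ d := by rw [hK]; exact Nat.div_mul_le_self _ _
  have hK2 : d < (K + 1) * (72 * μ) := by
    have := Nat.lt_div_mul_add (a := d) (b := 72 * μ) (by omega)
    rw [← hK] at this
    have e : (K + 1) * (72 * μ) = K * (72 * μ) + 72 * μ := by ring
    omega
  have hd200 : 200 * μ ≤ d := by
    have h1 : (200 * μ) ^ 2 ≤ d ^ 2 := by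
      have e : (200 * μ) ^ 2 = 40000 * 1 * μ ^ 2 := by ring
      rw [e]
      refine le_trans ?_ hd
      exact Nat.mul_le_mul_right _ (Nat.mul_le_mul_left _ hr1)
    exact (Nat.pow_le_pow_iff_left (by norm_num)).1 h1
  have hK3 : 2 ≤ K := by
    by_contra hcon
    have h1 : (K + 1) * (72 * μ) ≤ 2 * (72 * μ) := Nat.mul_le_mul_right _ (by omega)
    omega
  have hKr : 2 * r + 1 ≤ K ^ 2 := by
    have h1 : 2 * ((K + 1) * (72 * μ)) ≤ 3 * (K * (72 * μ)) := by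
      have e : 2 * ((K + 1) * (72 * μ)) = 2 * (K + 1) * (72 * μ) := by ring
      have e' : 3 * (K * (72 * μ)) = 3 * K * (72 * μ) := by ring
      rw [e, e']
      exact Nat.mul_le_mul_right _ (by omega)
    have h2 : 2 * d ≤ 216 * (K * μ) := by
      have e : 3 * (K * (72 * μ)) = 216 * (K * μ) := by ring
      omega
    have h3 : (2 * d) ^ 2 ≤ (216 * (K * μ)) ^ 2 := Nat.pow_le_pow_left h2 2
    have e1 : (2 * d) ^ 2 = 4 * d ^ 2 := by ring
    have e2 : (216 * (K * μ)) ^ 2 = 46656 * K ^ 2 * μ ^ 2 := by ring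
    rw [e1, e2] at h3
    have h4 : 160000 * r * μ ^ 2 ≤ 46656 * K ^ 2 * μ ^ 2 := by
      refine le_trans ?_ h3
      have e : 160000 * r * μ ^ 2 = 4 * (40000 * r * μ ^ 2) := by ring
      rw [e]
      exact Nat.mul_le_mul_left _ hd
    have h5 := Nat.le_of_mul_le_mul_right h4 (by positivity)
    omega
  have hKreal : (2 : ℝ) ≤ K := by exact_mod_cast hK3
  have hK0 : (0 : ℝ) < K := by linarith
  obtain ⟨H, hH⟩ : ∃ H : ℝ, H = ((d : ℝ) + 3 - 1 / (2 * K)) / (2 * K) := ⟨_, rfl⟩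
  have hKi : 1 / (2 * (K : ℝ)) ≤ 1 := by
    rw [div_le_one (by positivity)]
    linarith
  have hKi0 : 0 < 1 / (2 * (K : ℝ)) := by positivity
  have hK1r : (K : ℝ) * (72 * μ) ≤ d := by exact_mod_cast hK1
  have hK2r : (d : ℝ) < (K + 1) * (72 * μ) := by exact_mod_cast hK2
  have hH36 : 36 * (μ : ℝ) ≤ H := by
    rw [hH, le_div_iff₀ (by positivity)]
    linarith
  have hH55 : H ≤ 55 * μ := by
    rw [hH, div_le_iff₀ (by positivity)]
    have g1 : 2 * (μ : ℝ) ≤ K * μ := mul_le_mul_of_nonneg_right hKreal (by linarith)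
    linarith
  have hrμ : (μ : ℝ) ≤ r * μ := le_mul_of_one_le_left (by linarith) hrr
  have hX' : 14 * ((r : ℝ) * μ) ≤ X := by exact_mod_cast hX
  have hL' : 17 * ∑ x, (F x : ℝ) ≤ 136 * X + 4 * G1 + 1071 * (r * μ) := by exact_mod_cast hL
  have hn' : (Fintype.card ι : ℝ) ≤ X + 63 * (r * μ) := by exact_mod_cast hn
  have hsq1 : ∑ x, ((F x : ℝ) + 1) ^ 2 = 2 * cond F + ∑ x, (F x : ℝ) + Fintype.card ι := by
    have : ((2 * cond F : ℕ) : ℝ) = ((∑ x, F x ^ 2 + ∑ x, F x : ℕ) : ℝ) := by rw [hc2]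
    push_cast at this
    rw [this]
    have e : ∀ x : ι, ((F x : ℝ) + 1) ^ 2 = (F x : ℝ) ^ 2 + F x + F x + 1 := fun x => by ring
    simp only [e, sum_add_distrib, sum_const, card_univ, nsmul_eq_mul, mul_one]
  have hsur : Sur F (TZ d) := by
    refine Sur_win hSeq hCor hNod (K := K) (d := d) (H := H) (by omega) (by omega) ?_ hH
      (by linarith) ?_ ?_ ?_
    · have g1 : K ≤ d := by
        have : K * 1 ≤ K * (72 * μ) := Nat.mul_le_mul_left _ (by omega)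
        omega
      have g4 : K * K ≤ K * d := Nat.mul_le_mul_left _ g1
      have e : K * (d + 3) = K * d + 3 * K := by ring
      have e2 : K ^ 2 = K * K := sq K
      omega
    · intro x
      have : ((F x + 1 : ℕ) : ℝ) ≤ ((16 * μ : ℕ) : ℝ) := by exact_mod_cast hB x
      push_cast at this
      linarith
    · have g1 : 6 * ((univ.image F).card : ℝ) * H ^ 2 ≤ 12 * r * (55 * (μ : ℝ)) ^ 2 := by
        apply mul_le_mul (by linarith) _ (sq_nonneg _) (by positivity)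
        exact pow_le_pow_left₀ (by linarith) hH55 2
      have e1 : 12 * (r : ℝ) * (55 * (μ : ℝ)) ^ 2 = 36300 * (r * (μ : ℝ) ^ 2) := by ring
      have g2 : ∑ x, (F x : ℝ) ^ 2 ≤ ∑ x, ((F x : ℝ) + 1) ^ 2 :=
        sum_le_sum fun x _ => pow_le_pow_left₀ (Nat.cast_nonneg _) (by linarith) 2
      have g3 : D ^ 2 = ∑ x, (F x : ℝ) ^ 2 := by
        rw [hD, Real.sq_sqrt (sum_nonneg fun p _ => by positivity)]
      have g4 : 0 ≤ (r : ℝ) * (μ : ℝ) ^ 2 := by positivity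
      linarith
    · have g1 : ((univ.image F).card : ℝ) * H ≤ 2 * r * (55 * μ) :=
        mul_le_mul hq' hH55 (by linarith) (by positivity)
      have e4 : 4 * (K : ℝ) ^ 2 * H ^ 2 = ((d : ℝ) + 3 - 1 / (2 * K)) ^ 2 := by
        rw [hH]
        field_simp
        ring
      have g2 : ((d : ℝ) + 2) * (d + 3) ≤ ((d : ℝ) + 3 - 1 / (2 * K)) ^ 2 := by
        have e : ((d : ℝ) + 3 - 1 / (2 * K)) ^ 2 =
            ((d : ℝ) + 3) ^ 2 - (d + 3) * (2 * (1 / (2 * K))) + (1 / (2 * K)) ^ 2 := by ring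
        rw [e]
        have g3 : 2 * (1 / (2 * (K : ℝ))) ≤ 1 := by
          have : 2 * (1 / (2 * (K : ℝ))) = 1 / K := by field_simp
          rw [this, div_le_one hK0]
          linarith
        have g4 : ((d : ℝ) + 3) * (2 * (1 / (2 * K))) ≤ (d + 3) * 1 :=
          mul_le_mul_of_nonneg_left g3 (by positivity)
        have g5 : 0 ≤ (1 / (2 * (K : ℝ))) ^ 2 := sq_nonneg _
        have e6 : ((d : ℝ) + 2) * (d + 3) = (d + 3) ^ 2 - (d + 3) := by ring
        rw [e6]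
        linarith
      have h1 : ((cond F : ℕ) : ℝ) + G0 = T + G1 := by exact_mod_cast hcd
      have h2 : 56 * (X : ℝ) ≤ 2 * (G0 + G1) := by exact_mod_cast hgain
      have h3 : 2 * (T : ℝ) ≤ (d + 2) * (d + 3) := by exact_mod_cast hT2
      have h4 : 2 * (G1 : ℝ) < ∑ x, (F x : ℝ) := by exact_mod_cast hG
      have e5 : 2 * (r : ℝ) * (55 * μ) = 110 * (r * μ) := by ring
      rw [hsq1, e4]
      linarith
  have := crk_of_Sur (S := TF d) (by rw [coe_TF]; exact hsur)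
  omega

end Pool.Agent.Y205.FW
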