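import Pool.Agent.H15.G.R_seed8.Y205.MD.SurL

/-! Definitions and statements for vectors with few different multiplicities. -/

set_option autoImplicit false

namespace Pool.Agent.Y205.FW

open Finset Pool.Agent.TH176.Nag Pool.Agent.TH603.Sur Pool.Agent.TH745.MN Filter Topology

/-- pairs of rows with `m j + 1` and `m j - 1` exponents -/
def WMS (m : ℕ → ℕ) (L : ℕ) : Set (ℤ × ℤ) :=
  {p | 0 ≤ p.1 ∧ 0 ≤ p.2 ∧ p.2 < 2 * L ∧ p.1 + 2 * (p.2 % 2) ≤ m (p.2 / 2).toNat}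

/-- the exponents seen at the node -/
def SSS (m : ℕ → ℕ) (L : ℕ) (a b : ℝ) (ω : ℕ → ℝ) : Set (ℤ × ℤ) :=
  {p | 0 ≤ p.2 ∧ p.2 < L ∧ a * p.1 < ω (m p.2.toNat) ∧ -(b * p.1) < ω (m p.2.toNat)}

/-- independence at a node of height `h`, for open conditions on the slopes, of sum `σ` -/
def NOK (h : ℝ) {κ : Type} [Fintype κ] (w : κ → ℕ) (σ : ℝ) : Prop :=
  ∀ᶠ ε in 𝓝[>] (0 : ℝ), ∃ lx ux ly uy : ℝ, 0 < lx ∧ lx < ux ∧ 0 < ly ∧ ly < uy ∧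
    ux + uy ≤ σ + 2 * ε ∧
    ∀ X Y : ℝ, lx < X → X < ux → ly < Y → Y < uy → Sur w (Nd 1 (4 * h - 4) X Y)

/-- the key lemma for a sequence of row lengths, one node -/
def StKey : Prop :=
  ∀ {κ : Type} [Finite κ] {v : κ → ℕ} {a b : ℝ}, 0 < a → 0 < b → ∀ {ω : ℕ → ℝ},
    (∀ W, 0 < ω W ∧ 2 * W + 1 ≤ ⌈ω W / a⌉₊ + ⌈ω W / b⌉₊) → ∀ {m : ℕ → ℕ} {L : ℕ},
    (∀ j, j + 1 < L → m (j + 1) + 3 ≤ m j) → Emp v (SSS m L a b ω) → Emp v (WMS m L)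

/-- independence for a sequence of row lengths from one node -/
def StSeq : Prop :=
  ∀ {κ : Type} [Fintype κ] {w : κ → ℕ} {m : ℕ → ℕ} {L : ℕ},
    (∀ j, j + 1 < L → m (j + 1) + 3 ≤ m j) → (∀ j < L, 1 ≤ m j) → ∀ {x y : ℝ}, 0 < x → 0 < y →
    x + y ≤ 1 → Irrational (x / y) →
    Sur w {p : ℤ × ℤ | 0 ≤ p.2 ∧ p.2 < L ∧ -(y * (2 * (m p.2.toNat : ℝ) - 1)) < (p.1 : ℝ) ∧
      (p.1 : ℝ) < x * (2 * (m p.2.toNat : ℝ) - 1)} → Sur w (WMS m L)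

/-- a group of `k` points of multiplicity `l` in the corner of a triangle -/
def StCorner : Prop :=
  ∀ {κ : Type} [Fintype κ] {w : κ → ℕ} {k l : ℕ} {H X : ℝ}, 1 ≤ k → (l : ℝ) + 1 < H → 0 < X →
    Sur w (RegO (-(k * (l + 1) * (H - (l + 1)) / H ^ 2 * H)) (X * H)
      (k * (l + 1) * (H - (l + 1)) / H ^ 2) X) →
    Sur (Sum.elim (fun _ : Fin k => l) w) (RegO (-(k * (l + 1) / H * H)) (X * H)
      (k * (l + 1) / H) X)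

/-- independence in the plane from nodes indexed by a finite type -/
def StNodes : Prop :=
  ∀ {J : Type} [Fintype J] {K d : ℕ}, 2 ≤ K → Fintype.card J + 1 ≤ K ^ 2 →
    K ^ 2 + 2 ≤ K * (d + 3) → ∀ {κ : J → Type} [∀ j, Fintype (κ j)] {w : (Σ j, κ j) → ℕ}
    {σ : J → ℝ}, (∀ j, ∀ τ > σ j, NOK (((d : ℝ) + 3 - 1 / (2 * K)) / (2 * K))
      (fun x => w ⟨j, x⟩) τ) → ∑ j, σ j < 4 * (K : ℝ) ^ 2 →
    Sur w {m : ℤ × ℤ | 0 ≤ m.1 ∧ 0 ≤ m.2 ∧ m.1 + m.2 ≤ (d : ℤ)}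

end Pool.Agent.Y205.FW
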