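import Pool.Agent.H15.G.R_seed8.Y205.FW.Donor
import Pool.Agent.H15.G.R_seed8.Y205.MD.Cls

/-! Independence for few different multiplicities. -/

set_option autoImplicit false

namespace Pool.Agent.Y205.FW

open Finset Pool.Agent.TH176.Nag Pool.Agent.TH603.Sur Pool.Agent.TH745.MN
open Pool.Agent.Y205.MD (Sur_equiv exists_equiv_of_sum)

theorem herm (c : ℕ) : ∑ t : Fin 10, (c + t) / 10 = c := by
  have h0 : ∀ r : Fin 10, ∑ t : Fin 10, ((r : ℕ) + t) / 10 = r := by decide
  obtain ⟨q, r, hr⟩ : ∃ (q : ℕ) (r : Fin 10), c = 10 * q + r :=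
    ⟨c / 10, ⟨c % 10, Nat.mod_lt _ (by norm_num)⟩, (Nat.div_add_mod c 10).symm⟩
  have h1 : ∀ t : Fin 10, (c + t) / 10 = q + ((r : ℕ) + t) / 10 := by
    intro t
    rw [hr, add_assoc, Nat.mul_add_div (by norm_num)]
  rw [sum_congr rfl fun t _ => h1 t, sum_add_distrib, h0 r, sum_const, card_univ,
    Fintype.card_fin, smul_eq_mul]
  exact hr.symm

section
variable {r s : ℕ} {A' : Fin r → ℕ} {kk : Fin s × Fin 10 → ℕ} {N0 : ℕ}

/-- the nodes -/
def KT (A' : Fin r → ℕ) (kk : Fin s × Fin 10 → ℕ) (N0 : ℕ) : Fin r ⊕ (Fin s × Fin 10) → Type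
  | Sum.inl i => Fin (A' i)
  | Sum.inr p => Fin (kk p) ⊕ Fin N0

instance instKT : ∀ j, Fintype (KT A' kk N0 j)
  | Sum.inl i => inferInstanceAs (Fintype (Fin (A' i)))
  | Sum.inr p => inferInstanceAs (Fintype (Fin (kk p) ⊕ Fin N0))

/-- the multiplicities -/
def WT (m : Fin r → ℕ) (m' : Fin s → ℕ) (i0 : Fin r) : (Σ j, KT A' kk N0 j) → ℕ
  | ⟨Sum.inl i, _⟩ => 2 * m i
  | ⟨Sum.inr p, x⟩ => Sum.elim (fun _ : Fin (kk p) => m' p.1) (fun _ : Fin N0 => 2 * m i0) x

theorem sum_WT (m : Fin r → ℕ) (m' : Fin s → ℕ) (i0 : Fin r) (t : ℕ → ℕ) :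
    ∑ z : (Σ j, KT A' kk N0 j), t (WT m m' i0 z) = ∑ i, A' i * t (2 * m i) +
      ∑ p : Fin s × Fin 10, (kk p * t (m' p.1) + N0 * t (2 * m i0)) := by
  rw [Fintype.sum_sigma, Fintype.sum_sum_type]
  congr 1
  · refine sum_congr rfl fun i _ => ?_
    have : ∑ x : Fin (A' i), t (2 * m i) = A' i * t (2 * m i) := by simp
    exact this
  · refine sum_congr rfl fun p _ => ?_
    have : ∑ x : Fin (kk p) ⊕ Fin N0, t (Sum.elim (fun _ : Fin (kk p) => m' p.1)
        (fun _ : Fin N0 => 2 * m i0) x) = kk p * t (m' p.1) + N0 * t (2 * m i0) := by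
      rw [Fintype.sum_sum_type]
      simp
    exact this

end

/-- **Independence** for few different multiplicities. -/
theorem Sur_few (hSeq : StSeq) (hCor : StCorner) (hNod : StNodes) {r s K d N0 : ℕ}
    {A m : Fin r → ℕ} {c m' : Fin s → ℕ} {i0 : Fin r} {H : ℝ} (hK : 2 ≤ K)
    (hrs : r + 10 * s + 1 ≤ K ^ 2) (hKd : K ^ 2 + 2 ≤ K * (d + 3))
    (hH : H = ((d : ℝ) + 3 - 1 / (2 * K)) / (2 * K)) (hH1 : 1 ≤ H)
    (hN0 : 10 * s * N0 ≤ A i0)
    (hblk : ∀ i, H ≤ ((A i - if i = i0 then 10 * s * N0 else 0 : ℕ) : ℝ) * (2 * m i + 1))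
    (hU : ∀ i, 2 * (m i : ℝ) + 1 < H)
    (hρ2 : 2 * H ^ 2 ≤ N0 * (2 * m i0 + 1) ^ 2 + H)
    (hρN : 4 * (N0 * (2 * m i0 + 1) ^ 2 + H) ≤ N0 * H ^ 2)
    (hg : ∀ g, ((c g : ℝ) / 10 + 1) * (m' g + 1) ≤ H) (hV : ∀ g, (m' g : ℝ) + 1 < H)
    (hcost : ∑ i, (A i : ℝ) * (2 * m i + 1) ^ 2 + ∑ g, (c g : ℝ) * (m' g + 1) ^ 2 +
      10 * s * H < 4 * K ^ 2 * H ^ 2) :
    Sur (Sum.elim (fun p : Σ i, Fin (A i) => 2 * m p.1) (fun z : Σ g, Fin (c g) => m' z.1))
      (TZ d) := by
  classical
  have hH0 : 0 < H := by linarith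
  have hHH : H * 1 ≤ H * H := mul_le_mul_of_nonneg_left hH1 hH0.le
  obtain ⟨A', hA'⟩ : ∃ A' : Fin r → ℕ, ∀ i, A' i = A i - if i = i0 then 10 * s * N0 else 0 :=
    ⟨_, fun _ => rfl⟩
  obtain ⟨kk, hkk⟩ : ∃ kk : Fin s × Fin 10 → ℕ, ∀ p, kk p = (c p.1 + p.2) / 10 :=
    ⟨_, fun _ => rfl⟩
  simp only [← hA'] at hblk
  have hkk1 : ∀ f : Fin s → ℕ, ∑ p : Fin s × Fin 10, kk p * f p.1 = ∑ g, c g * f g := by
    intro f
    rw [Fintype.sum_prod_type]
    refine sum_congr rfl fun g _ => ?_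
    have e : ∑ y : Fin 10, kk (g, y) * f g = (∑ y : Fin 10, kk (g, y)) * f g :=
      (sum_mul _ _ _).symm
    refine e.trans ?_
    congr 1
    simp only [hkk]
    exact herm (c g)
  have hA1 : ∀ f : Fin r → ℕ, ∑ i, A' i * f i + 10 * s * N0 * f i0 = ∑ i, A i * f i := by
    intro f
    have h1 : 10 * s * N0 * f i0 = ∑ i, (if i = i0 then 10 * s * N0 else 0) * f i := by
      rw [Finset.sum_eq_single i0]
      · rw [if_pos rfl]
      · intro i _ hi
        rw [if_neg hi, zero_mul]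
      · intro h
        exact absurd (mem_univ _) h
    rw [h1, ← sum_add_distrib]
    refine sum_congr rfl fun i _ => ?_
    rw [← add_mul]
    congr 1
    rw [hA']
    split_ifs with h
    · subst h
      omega
    · omega
  obtain ⟨U, hUd⟩ : ∃ U : ℝ, U = 2 * m i0 + 1 := ⟨_, rfl⟩
  have hUpos : 0 < U := by rw [hUd]; positivity
  have hUH : U < H := by rw [hUd]; exact hU i0
  rw [← hUd] at hρ2 hρN
  have hN00 : (0 : ℝ) < N0 := by
    by_contra hcon
    push Not at hcon
    have h0 : (N0 : ℝ) = 0 := le_antisymm hcon (Nat.cast_nonneg _)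
    rw [h0, zero_mul, zero_add] at hρN
    linarith
  obtain ⟨σ, hσ⟩ : ∃ σ : Fin r ⊕ (Fin s × Fin 10) → ℝ, σ =
      Sum.elim (fun i => (A' i : ℝ) * (2 * m i + 1) ^ 2 / H ^ 2)
        (fun p => (N0 * U ^ 2 + H) / H ^ 2 + (kk p : ℝ) * (m' p.1 + 1) ^ 2 / H ^ 2) := ⟨_, rfl⟩
  have key := hNod (J := Fin r ⊕ (Fin s × Fin 10)) (K := K) (d := d) hK (by
      rw [Fintype.card_sum, Fintype.card_prod, Fintype.card_fin, Fintype.card_fin,
        Fintype.card_fin]
      omega) hKd (κ := KT A' kk N0) (w := WT m m' i0) (σ := σ) (by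
      rintro (i | p) τ hτ
      · rw [hσ] at hτ
        simp only [Sum.elim_inl] at hτ
        rw [← hH]
        have h1 := NOK_block (h := H) (N := A' i) (u := 2 * m i) hH1
          (by push_cast; exact hblk i) (by push_cast; exact hU i) (τ := τ)
          (by push_cast; exact hτ)
        exact h1
      · rw [hσ] at hτ
        simp only [Sum.elim_inr] at hτ
        rw [← hH]
        rcases Nat.eq_zero_or_pos (kk p) with hk | hk
        · have h1 := NOK_block (h := H) (N := N0) (u := 2 * m i0) hH1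
            (by
              push_cast
              rw [← hUd]
              have g1 : H * H ≤ N0 * U * H := by
                have g2 : N0 * U * U ≤ N0 * U * H :=
                  mul_le_mul_of_nonneg_left hUH.le (by positivity)
                linarith
              exact le_of_mul_le_mul_right g1 hH0) (by push_cast; rw [← hUd]; exact hUH) (τ := τ)
            (by
              push_cast
              rw [← hUd]
              refine lt_of_le_of_lt ?_ hτ
              rw [hk, Nat.cast_zero, zero_mul, zero_div, add_zero]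
              apply div_le_div_of_nonneg_right _ (by positivity)
              linarith)
          have hemp : IsEmpty (Fin (kk p)) := by rw [hk]; infer_instance
          exact h1.equiv (Equiv.emptySum (Fin (kk p)) (Fin N0)).symm (fun x => rfl)
        · have h1 := NOK_rare hSeq hCor (N := N0) (u := 2 * m i0) (k := kk p) (l := m' p.1)
            (H := H) (ρ := (N0 * U ^ 2 + H) / H ^ 2) hk (hV p.1) (by
              refine le_trans ?_ (hg p.1)
              apply mul_le_mul_of_nonneg_right _ (by positivity)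
              rw [hkk]
              have h2 : (c p.1 + (p.2 : ℕ)) / 10 ≤ (c p.1 + 9) / 10 :=
                Nat.div_le_div_right (by have := p.2.2; omega)
              have h3 : (((c p.1 + (p.2 : ℕ)) / 10 : ℕ) : ℝ) ≤ (((c p.1 + 9) / 10 : ℕ) : ℝ) := by
                exact_mod_cast h2
              have h4 : (((c p.1 + 9) / 10 : ℕ) : ℝ) ≤ ((c p.1 + 9 : ℕ) : ℝ) / 10 := by
                exact_mod_cast Nat.cast_div_le
              push_cast at h4
              linarith) (by push_cast; rw [← hUd]; field_simp) (by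
              rw [le_div_iff₀ (by positivity)]
              exact hρ2) (by
              rw [← mul_div_assoc, div_le_iff₀ (by positivity)]
              exact hρN) hH1 (τ := τ) hτ
          exact h1) (by
      rw [hσ, Fintype.sum_sum_type]
      simp only [Sum.elim_inl, Sum.elim_inr]
      have e1 := hA1 fun i => (2 * m i + 1) ^ 2
      have e2 := hkk1 fun g => (m' g + 1) ^ 2
      have e1' : ∑ i, (A' i : ℝ) * (2 * m i + 1) ^ 2 + 10 * s * N0 * U ^ 2 =
          ∑ i, (A i : ℝ) * (2 * m i + 1) ^ 2 := by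
        rw [hUd]
        exact_mod_cast e1
      have e2' : ∑ p : Fin s × Fin 10, (kk p : ℝ) * (m' p.1 + 1) ^ 2 =
          ∑ g, (c g : ℝ) * (m' g + 1) ^ 2 := by exact_mod_cast e2
      rw [sum_add_distrib, ← sum_div, ← sum_div, ← sum_div, e2', sum_const, card_univ,
        Fintype.card_prod, Fintype.card_fin, Fintype.card_fin, nsmul_eq_mul, ← add_div,
        ← add_div, div_lt_iff₀ (by positivity)]
      push_cast
      have e3 : (s : ℝ) * 10 * (N0 * U ^ 2 + H) = 10 * s * N0 * U ^ 2 + 10 * s * H := by ring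
      rw [e3]
      linarith)
  obtain ⟨τ, hτ⟩ := exists_equiv_of_sum (f := WT (A' := A') (kk := kk) (N0 := N0) m m' i0)
    (g := (Sum.elim (fun p : Σ i, Fin (A i) => 2 * m p.1) (fun z : Σ g, Fin (c g) => m' z.1) :
      (Σ i, Fin (A i)) ⊕ (Σ g, Fin (c g)) → ℕ)) (by
      intro t
      rw [sum_WT, Fintype.sum_sum_type, Fintype.sum_sigma, Fintype.sum_sigma]
      simp only [Sum.elim_inl, Sum.elim_inr]
      have e1 := hA1 fun i => t (2 * m i)
      have e2 := hkk1 fun g => t (m' g)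
      rw [sum_add_distrib, e2, sum_const, card_univ, Fintype.card_prod,
        Fintype.card_fin, Fintype.card_fin]
      simp only [sum_const, card_univ, Fintype.card_fin, smul_eq_mul]
      rw [← e1]
      ring)
  exact Sur_equiv τ hτ key

end Pool.Agent.Y205.FW
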