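import Pool.Agent.H15.G.R_seed8.Y205.FW.Num
import Pool.Agent.H15.G.R_seed8.Y205.FW.Raise2
import Pool.Agent.H15.G.R_seed8.Y205.FW.SurFew

/-! Models of vectors with few different multiplicities, and their numbers. -/

set_option autoImplicit false

namespace Pool.Agent.Y205.FW

open Finset Pool.Agent.TH176.Nag Pool.Agent.TH603.Sur Pool.Agent.TH2.NU
open Pool.Agent.Y205.MD
open Pool.Agent.TH387.SH (TF coe_TF card_TF)

theorem enum (V : Finset ℕ) : ∃ m : Fin V.card → ℕ, (∀ i, m i ∈ V) ∧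
    ∀ F : ℕ → ℕ, ∑ i, F (m i) = ∑ v ∈ V, F v := by
  refine ⟨fun i => (V.equivFin.symm i : ℕ), fun i => (V.equivFin.symm i).2, fun F => ?_⟩
  rw [← Finset.sum_coe_sort V F, ← V.equivFin.symm.sum_comp]

/-- the number of points of multiplicity `v` -/
def nb {n : ℕ} (w : Fin n → ℕ) (v : ℕ) : ℕ := (univ.filter fun q => w q = v).card

/-- the number of points of multiplicity `v` which are not specialised -/
def cf {n : ℕ} (w : Fin n → ℕ) (μ v : ℕ) : ℕ := if 15 * μ ≤ nb w v * v then nb w v % 4 else nb w v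

theorem classes {n : ℕ} (w : Fin n → ℕ) (μ : ℕ) (t : ℕ → ℕ) :
    ∑ p, t (w p) = ∑ v ∈ (univ.image w).filter (fun v => 15 * μ ≤ nb w v * v),
      4 * (nb w v / 4) * t v + ∑ v ∈ univ.image w, cf w μ v * t v := by
  rw [sum_filter, ← sum_add_distrib, Finset.sum_comp t w]
  refine sum_congr rfl fun v _ => ?_
  have h : (univ.filter fun q => w q = v).card = nb w v := rfl
  rw [h, smul_eq_mul]
  unfold cf
  split_ifs
  · rw [← add_mul, Nat.div_add_mod]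
  · rw [zero_add]

theorem cf_mul_le {n : ℕ} {w : Fin n → ℕ} {μ v : ℕ} (hv : v ≤ μ) : cf w μ v * v ≤ 15 * μ := by
  unfold cf
  split_ifs with h
  · have h1 : nb w v % 4 ≤ 3 := by have := Nat.mod_lt (nb w v) (show 0 < 4 by norm_num); omega
    calc nb w v % 4 * v ≤ 3 * μ := Nat.mul_le_mul h1 hv
      _ ≤ 15 * μ := Nat.mul_le_mul_right _ (by norm_num)
  · omega

/-- the clusters and the other points -/
structure IsModel {n r s : ℕ} (w : Fin n → ℕ) (μ : ℕ) (A m : Fin r → ℕ) (c m' : Fin s → ℕ) :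
    Prop where
  cl : ∀ t : ℕ → ℕ, ∑ p, t (w p) = ∑ i, 4 * A i * t (m i) + ∑ g, c g * t (m' g)
  m1 : ∀ i, 1 ≤ m i
  mμ : ∀ i, m i ≤ μ
  m1' : ∀ g, 1 ≤ m' g
  mμ' : ∀ g, m' g ≤ μ
  cm : ∀ g, c g * m' g ≤ 15 * μ
  Am : ∀ i, 12 * μ ≤ 4 * A i * m i
  rs : r ≤ s
  cs : s = (univ.image w).card

theorem exists_isModel {n : ℕ} {w : Fin n → ℕ} {μ : ℕ} (hpos : ∀ p, 1 ≤ w p)
    (hμ : ∀ p, w p ≤ μ) : ∃ (r s : ℕ) (A m : Fin r → ℕ) (c m' : Fin s → ℕ),
      IsModel w μ A m c m' := by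
  classical
  obtain ⟨V, hV⟩ : ∃ V : Finset ℕ, V = univ.image w := ⟨_, rfl⟩
  obtain ⟨V1, hV1⟩ : ∃ V1 : Finset ℕ, V1 = V.filter (fun v => 15 * μ ≤ nb w v * v) := ⟨_, rfl⟩
  have hVv : ∀ v ∈ V, 1 ≤ v ∧ v ≤ μ := by
    intro v hv
    rw [hV] at hv
    obtain ⟨p, -, hp⟩ := mem_image.1 hv
    rw [← hp]
    exact ⟨hpos p, hμ p⟩
  obtain ⟨m, hm, hmS⟩ := enum V1
  obtain ⟨m', hm', hmS'⟩ := enum V
  have hcl : ∀ t : ℕ → ℕ, ∑ p, t (w p) = ∑ i, 4 * (nb w (m i) / 4) * t (m i) +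
      ∑ g, cf w μ (m' g) * t (m' g) := by
    intro t
    rw [classes w μ t, ← hV, ← hV1, ← hmS fun v => 4 * (nb w v / 4) * t v,
      ← hmS' fun v => cf w μ v * t v]
  have hmv : ∀ i, 1 ≤ m i ∧ m i ≤ μ ∧ 15 * μ ≤ nb w (m i) * m i := by
    intro i
    have h := hm i
    rw [hV1, mem_filter] at h
    exact ⟨(hVv _ h.1).1, (hVv _ h.1).2, h.2⟩
  refine ⟨V1.card, V.card, fun i => nb w (m i) / 4, m, fun g => cf w μ (m' g), m', hcl,
    fun i => (hmv i).1, fun i => (hmv i).2.1, fun g => (hVv _ (hm' g)).1,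
    fun g => (hVv _ (hm' g)).2, fun g => cf_mul_le (hVv _ (hm' g)).2, ?_, ?_, by rw [hV]⟩
  · intro i
    obtain ⟨g1, g2, g3⟩ := hmv i
    have h4 : nb w (m i) ≤ 4 * (nb w (m i) / 4) + 3 := by omega
    have h5 : nb w (m i) * m i ≤ (4 * (nb w (m i) / 4) + 3) * m i := Nat.mul_le_mul_right _ h4
    have h6 : (4 * (nb w (m i) / 4) + 3) * m i = 4 * (nb w (m i) / 4) * m i + 3 * m i := by ring
    omega
  · rw [hV1]
    exact card_filter_le _ _

theorem IsModel.A1 {n r s : ℕ} {w : Fin n → ℕ} {μ : ℕ} {A m : Fin r → ℕ} {c m' : Fin s → ℕ}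
    (h : IsModel w μ A m c m') (i : Fin r) : 1 ≤ A i := by
  by_contra hcon
  have h0 : A i = 0 := by omega
  have h1 := h.Am i
  have h2 := h.m1 i
  have h3 := h.mμ i
  rw [h0] at h1
  omega

/-- the numbers of a model -/
structure Nums {n r s : ℕ} (w : Fin n → ℕ) (μ : ℕ) (A m : Fin r → ℕ) (c m' : Fin s → ℕ) (d : ℕ)
    (D L : ℝ) : Prop where
  μ1 : (1 : ℝ) ≤ μ
  s1 : (1 : ℝ) ≤ s
  D0 : 0 < D
  D2 : D ^ 2 = ∑ p, (w p : ℝ) ^ 2
  L0 : 0 ≤ L
  T1 : (d : ℝ) ^ 2 + d < D ^ 2 + L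
  T2 : D ^ 2 + L ≤ ((d : ℝ) + 2) * (d + 3)
  sμD : 1000 * (s : ℝ) * μ ≤ D
  Dμ : 1000 * (μ : ℝ) ≤ D
  μbig : 1000 ≤ 3 * (μ : ℝ)
  sL : √L ≤ 11 / 200 * D
  rL : s * L ≤ 3 / 1000 * D ^ 2
  Dd : D ≤ d
  dD : (d : ℝ) + 3 ≤ 101 / 100 * D
  LD : 1000 * D ≤ L
  E : ∑ g, (c g : ℝ) * m' g ≤ 15 * (s * μ)
  C : ∑ g, (c g : ℝ) ≤ 15 * (s * μ)
  sumA : ∑ i, 4 * (A i : ℝ) + ∑ g, (c g : ℝ) = n
  sumL : ∑ i, 4 * (A i : ℝ) * m i + ∑ g, (c g : ℝ) * m' g = L
  sumD : ∑ i, 4 * (A i : ℝ) * (m i : ℝ) ^ 2 + ∑ g, (c g : ℝ) * (m' g : ℝ) ^ 2 = D ^ 2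
  DL : D ^ 2 + L = ∑ i, 4 * (A i : ℝ) * (m i * (m i + 1)) + ∑ g, (c g : ℝ) * (m' g * (m' g + 1))

theorem IsModel.nums {n r s : ℕ} {w : Fin n → ℕ} {μ : ℕ} {A m : Fin r → ℕ} {c m' : Fin s → ℕ}
    (hM : IsModel w μ A m c m') {D q : ℝ} (hD : D = √(∑ p, (w p : ℝ) ^ 2))
    (hn0 : 0 < n) (hpos : ∀ p, 1 ≤ w p) (hμ : ∀ p, w p ≤ μ) (hq : 1 ≤ q)
    (hn : (n : ℝ) ≤ 3 * q * D) (h1 : 1000 * q * ((univ.image w).card : ℝ) * μ ≤ D) {d : ℕ}
    (hT1 : d * (d + 1) < 2 * ∑ p, (w p + 1).choose 2)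
    (hT2 : 2 * ∑ p, (w p + 1).choose 2 ≤ (d + 2) * (d + 3)) :
    Nums w μ A m c m' d D (∑ p, (w p : ℝ)) := by
  classical
  rw [← hM.cs] at h1
  have hμ1 : 1 ≤ μ := (hpos ⟨0, hn0⟩).trans (hμ ⟨0, hn0⟩)
  have hs1 : 1 ≤ s := by
    rw [hM.cs]
    exact card_pos.2 ⟨w ⟨0, hn0⟩, mem_image_of_mem _ (mem_univ _)⟩
  obtain ⟨σ, hσ⟩ : ∃ σ : ℝ, σ = s := ⟨_, rfl⟩
  rw [← hσ] at h1
  have hσ1 : 1 ≤ σ := by rw [hσ]; exact_mod_cast hs1
  have hσ0 : 0 < σ := by linarith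
  have hμr : (1 : ℝ) ≤ μ := by exact_mod_cast hμ1
  have hμ0 : (0 : ℝ) < μ := by linarith
  have hsμ : (μ : ℝ) ≤ σ * μ := le_mul_of_one_le_left hμ0.le hσ1
  have hqsμ : σ * μ ≤ q * (σ * μ) := le_mul_of_one_le_left (by positivity) hq
  have hD2 : D ^ 2 = ∑ p, (w p : ℝ) ^ 2 := by
    rw [hD, Real.sq_sqrt]
    exact sum_nonneg fun p _ => by positivity
  have e0 : 1000 * q * σ * μ = 1000 * (q * (σ * μ)) := by ring
  have hD0 : 0 < D := by linarith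
  have h2 : 1000 * σ * μ ≤ D := by linarith
  have h3 : 1000 * (μ : ℝ) ≤ D := by linarith
  obtain ⟨L, hLd⟩ : ∃ L : ℝ, L = ∑ p, (w p : ℝ) := ⟨_, rfl⟩
  rw [← hLd]
  have hL0 : 0 ≤ L := by rw [hLd]; exact sum_nonneg fun p _ => Nat.cast_nonneg _
  have hT : ((2 * ∑ p, (w p + 1).choose 2 : ℕ) : ℝ) = D ^ 2 + L := by
    rw [hD2, hLd, ← sum_add_distrib]
    push_cast
    rw [mul_sum]
    refine sum_congr rfl fun i _ => ?_
    rw [choose_real]
    ring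
  have hT1' : (d : ℝ) ^ 2 + d < D ^ 2 + L := by
    rw [← hT]
    have : ((d * (d + 1) : ℕ) : ℝ) < ((2 * ∑ p, (w p + 1).choose 2 : ℕ) : ℝ) := by
      exact_mod_cast hT1
    push_cast at this ⊢
    linarith
  have hT2' : D ^ 2 + L ≤ ((d : ℝ) + 2) * (d + 3) := by
    rw [← hT]
    exact_mod_cast hT2
  have hLn : L ≤ n * μ := by
    rw [hLd]
    have : ∑ p : Fin n, (w p : ℝ) ≤ ∑ _p : Fin n, (μ : ℝ) :=
      sum_le_sum fun p _ => by exact_mod_cast hμ p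
    rwa [sum_const, card_univ, Fintype.card_fin, nsmul_eq_mul] at this
  have hCS : L ^ 2 ≤ n * D ^ 2 := by
    rw [hLd, hD2]
    have := sq_sum_le_card_mul_sum_sq (s := (univ : Finset (Fin n))) (f := fun p => (w p : ℝ))
    rwa [card_univ, Fintype.card_fin] at this
  have hLμ : D ^ 2 ≤ μ * L := by
    rw [hLd, hD2, mul_sum]
    refine sum_le_sum fun p _ => ?_
    have g1 : (w p : ℝ) ≤ μ := by exact_mod_cast hμ p
    have g2 : (0 : ℝ) ≤ w p := Nat.cast_nonneg _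
    nlinarith
  have hμbig : 1000 ≤ 3 * (μ : ℝ) := by
    have hL3 : L ^ 2 ≤ 3 * q * D ^ 3 := by
      refine hCS.trans ?_
      have := mul_le_mul_of_nonneg_right hn (sq_nonneg D)
      linarith [show 3 * q * D * D ^ 2 = 3 * q * D ^ 3 by ring]
    have hDμ : D ≤ 3 * q * μ ^ 2 := by
      have g1 : (D ^ 2) ^ 2 ≤ (μ * L) ^ 2 := pow_le_pow_left₀ (by positivity) hLμ 2
      have g3 : D ^ 3 * D ≤ D ^ 3 * (3 * q * μ ^ 2) := by
        calc D ^ 3 * D = (D ^ 2) ^ 2 := by ring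
          _ ≤ (μ * L) ^ 2 := g1
          _ = μ ^ 2 * L ^ 2 := by ring
          _ ≤ μ ^ 2 * (3 * q * D ^ 3) := mul_le_mul_of_nonneg_left hL3 (by positivity)
          _ = D ^ 3 * (3 * q * μ ^ 2) := by ring
      exact le_of_mul_le_mul_left g3 (by positivity)
    have : q * μ * 1000 ≤ q * μ * (3 * μ) := by
      have e : q * μ * (3 * μ) = 3 * q * μ ^ 2 := by ring
      have e1 : q * μ * 1000 = 1000 * (q * μ) := by ring
      have e2 : q * μ ≤ q * (σ * μ) := mul_le_mul_of_nonneg_left hsμ (by linarith)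
      rw [e]
      linarith
    exact le_of_mul_le_mul_left this (by positivity)
  have hrL : σ * L ≤ 3 / 1000 * D ^ 2 := by
    have g1 : σ * L ≤ σ * (3 * q * D * μ) := by
      apply mul_le_mul_of_nonneg_left _ (by linarith)
      exact hLn.trans (mul_le_mul_of_nonneg_right hn hμ0.le)
    have g2 := mul_le_mul_of_nonneg_left h1 hD0.le
    have e : σ * (3 * q * D * μ) = 3 / 1000 * (D * (1000 * q * σ * μ)) := by ring
    have e2 : D * D = D ^ 2 := by ring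
    rw [e] at g1
    linarith
  have hL3 : L ≤ 3 / 1000 * D ^ 2 := by
    have : 1 * L ≤ σ * L := mul_le_mul_of_nonneg_right hσ1 hL0
    linarith
  have h5 : √L ≤ 11 / 200 * D := by
    rw [Real.sqrt_le_left (by positivity)]
    have e : (11 / 200 * D) ^ 2 = 121 / 40000 * D ^ 2 := by ring
    rw [e]
    have : 0 ≤ D ^ 2 := sq_nonneg D
    linarith
  have hLD : 1000 * D ≤ L := by
    have g0 := mul_le_mul_of_nonneg_right h3 hD0.le
    have : μ * (1000 * D) ≤ μ * L := by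
      have e : μ * (1000 * D) = 1000 * μ * D := by ring
      have e2 : D * D = D ^ 2 := by ring
      linarith
    exact le_of_mul_le_mul_left this hμ0
  have hd0 : (0 : ℝ) ≤ d := Nat.cast_nonneg _
  have h7 : D ≤ d := by
    by_contra hcon
    push Not at hcon
    have g1 : ((d : ℝ) + 2) * (d + 3) < (D + 2) * (D + 3) :=
      mul_lt_mul'' (by linarith) (by linarith) (by linarith) (by linarith)
    have e : (D + 2) * (D + 3) = D ^ 2 + 5 * D + 6 := by ring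
    linarith
  have h8 : (d : ℝ) + 3 ≤ 101 / 100 * D := by
    have g1 : (d : ℝ) < 201 / 200 * D := by
      by_contra hcon
      push Not at hcon
      have g2 : (201 / 200 * D) ^ 2 ≤ (d : ℝ) ^ 2 := pow_le_pow_left₀ (by positivity) hcon 2
      have g3 : 0 < D ^ 2 := by positivity
      have e : (201 / 200 * D) ^ 2 = 40401 / 40000 * D ^ 2 := by ring
      rw [e] at g2
      linarith
    linarith
  have hclR : ∀ t : ℕ → ℕ, ∑ p, (t (w p) : ℝ) = ∑ i, 4 * (A i : ℝ) * t (m i) +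
      ∑ g, (c g : ℝ) * t (m' g) := by
    intro t
    exact_mod_cast hM.cl t
  have hcm' : ∀ g, (c g : ℝ) * m' g ≤ 15 * μ := fun g => by exact_mod_cast hM.cm g
  have hE : ∑ g, (c g : ℝ) * m' g ≤ 15 * (σ * μ) := by
    refine (sum_le_sum fun g _ => hcm' g).trans ?_
    rw [sum_const, card_univ, Fintype.card_fin, nsmul_eq_mul, ← hσ]
    linarith
  refine ⟨hμr, by rw [← hσ]; exact hσ1, hD0, hD2, hL0, hT1', hT2', by rw [← hσ]; exact h2, h3,
    hμbig, h5, by rw [← hσ]; exact hrL, h7, h8, hLD, by rw [← hσ]; exact hE, ?_, ?_, ?_, ?_, ?_⟩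
  · rw [← hσ]
    refine le_trans (sum_le_sum fun g _ => ?_) hE
    exact le_mul_of_one_le_right (Nat.cast_nonneg _) (by exact_mod_cast hM.m1' g)
  · have e := hclR fun _ => 1
    simp only [Nat.cast_one, mul_one, sum_const, card_univ, Fintype.card_fin,
      nsmul_eq_mul] at e
    exact e.symm
  · have e := hclR fun v => v
    rw [hLd, e]
  · have e := hclR fun y => y ^ 2
    push_cast at e
    rw [hD2, e]
  · have e := hclR fun y => y * (y + 1)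
    push_cast at e
    rw [← e, hD2, hLd, ← sum_add_distrib]
    refine sum_congr rfl fun i _ => ?_
    ring

end Pool.Agent.Y205.FW
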