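import Pool.Agent.H15.G.R_seed8.Y205.FW.Base

/-! The critical degrees from the independence of the clusters, and induction. -/

set_option autoImplicit false

namespace Pool.Agent.Y205.FW

open Finset Pool.Agent.TH176.Nag Pool.Agent.TH603.Sur Pool.Agent.TH2.NU
open Pool.Agent.Y205.MD
open Pool.Agent.TH387.SH (TF coe_TF card_TF)
open Pool.Agent.TH745.MN (TZ_mono)

/-- the dichotomy in the degree `d` -/
def Crit {n : ℕ} (w : Fin n → ℕ) (d : ℕ) : Prop :=
  ((d + 2).choose 2 ≤ ∑ p, (w p + 1).choose 2 → Emp w (TZ d)) ∧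
    (∑ p, (w p + 1).choose 2 ≤ (d + 2).choose 2 → Sur w (TZ d))

theorem crit_of_sur {n s1 s : ℕ} {w : Fin n → ℕ}
    {μ : ℕ} {A m : Fin s1 → ℕ} {c m' : Fin s → ℕ} (hM : IsModel w μ A m c m') {D L : ℝ} {d : ℕ}
    (hN : Nums w μ A m c m' d D L)
    (hsur : Sur (Sum.elim (fun p : Σ i, Fin (A i) => 2 * m p.1)
      (fun z : Σ g, Fin (c g) => m' z.1)) (TZ d)) : Crit w d := by
  classical
  obtain ⟨hμr, hr1', hD0, hD2, hL0, hT1', hT2', h1, b2, b3, b5, b6, b7, b8, hLD, hE, hC, hsA,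
    hsL, hsD, hDL⟩ := hN
  obtain ⟨r, hr⟩ : ∃ r : ℝ, r = s := ⟨_, rfl⟩
  rw [← hr] at h1 hr1' b6 hE hC
  have hr0 : 0 < r := by linarith
  have hμ0 : (0 : ℝ) < μ := by linarith
  have hrμ : (μ : ℝ) ≤ r * μ := le_mul_of_one_le_left hμ0.le hr1'
  have hA1 := hM.A1
  have hE0 : 0 ≤ ∑ g, (c g : ℝ) * m' g := sum_nonneg fun g _ => by positivity
  have hrs1 : (s1 : ℝ) ≤ r := by rw [hr]; exact_mod_cast hM.rs
  have hmμ : ∀ i, (m i : ℝ) ≤ μ := fun i => by exact_mod_cast hM.mμ i
  have hmμ' : ∀ g, (m' g : ℝ) ≤ μ := fun g => by exact_mod_cast hM.mμ' g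
  have hsig : ∀ f : ℕ → ℝ, ∑ z : Σ g, Fin (c g), f (m' z.1) = ∑ g, (c g : ℝ) * f (m' g) := by
    intro f
    rw [Fintype.sum_sigma]
    refine sum_congr rfl fun i _ => ?_
    simp
  obtain ⟨B, hB⟩ : ∃ B : ℝ, B = 3 * μ + √L := ⟨_, rfl⟩
  obtain ⟨hB3, hB4⟩ := few_B hr1' hμr hL0 h1 b2 b5 b6 b7
  rw [← hB] at hB3 hB4
  have hsq0 : 0 ≤ √L := Real.sqrt_nonneg _
  have hsqL : √L ^ 2 = L := Real.sq_sqrt hL0
  have hsumt : 4 * ∑ j, (m j : ℝ) * A j ≤ L := by
    have : 4 * ∑ j, (m j : ℝ) * A j = ∑ i, 4 * (A i : ℝ) * m i := by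
      rw [mul_sum]
      exact sum_congr rfl fun i _ => by ring
    rw [this]
    linarith
  have hne : Nonempty (Σ i, Fin (A i)) := by
    by_contra hcon
    have hs0 : IsEmpty (Fin s1) := ⟨fun i => hcon ⟨⟨i, ⟨0, hA1 i⟩⟩⟩⟩
    rw [Fintype.sum_empty] at hsL
    linarith
  have hraise := raise_ex (A := A) (m := m) (e := fun z : Σ g, Fin (c g) => m' z.1) (d := d)
    (B := B) (q := 3 * r) (y := √L + 1) hA1 hM.m1 (fun z => hM.m1' z.1) (by
      have g1 : (univ.image fun z : Σ g, Fin (c g) => m' z.1) ⊆ univ.image m' := by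
        intro v hv
        obtain ⟨z, -, hz⟩ := mem_image.1 hv
        rw [← hz]
        exact mem_image_of_mem _ (mem_univ _)
      have g2 := (card_le_card g1).trans card_image_le
      rw [card_univ, Fintype.card_fin] at g2
      have g3 : (((univ.image fun z : Σ g, Fin (c g) => m' z.1).card : ℕ) : ℝ) ≤ r := by
        rw [hr]; exact_mod_cast g2
      linarith) (fun z => by
      have := hmμ' z.1
      rw [hB]
      linarith) hB3 hB4 (by
      rw [hsig fun v => (v : ℝ) * (v + 1), ← hDL]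
      exact hT1') (by linarith) (fun i => by
      have hA1r : (1 : ℝ) ≤ A i := by exact_mod_cast hA1 i
      have e : (A i : ℝ) * (√L + 1) ^ 2 = A i * √L ^ 2 + A i + 2 * (A i * √L) := by ring
      rw [e, hsqL]
      have g1 : 1 * L ≤ A i * L := mul_le_mul_of_nonneg_right hA1r hL0
      have g2 : 0 ≤ (A i : ℝ) * √L := mul_nonneg (Nat.cast_nonneg _) hsq0
      linarith) (fun i => by
      have := hmμ i
      rw [hB]
      linarith) (fun i => by
      rw [hsig fun v => (v : ℝ)]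
      have := hmμ i
      linarith)
  -- the model
  obtain ⟨τ, hτ⟩ := exists_equiv_of_sum
    (f := (Sum.elim (fun p : (Σ i, Fin (A i)) × (Fin 2 × Fin 2) => m p.1.1)
      (fun z : Σ g, Fin (c g) => m' z.1) :
      ((Σ i, Fin (A i)) × (Fin 2 × Fin 2)) ⊕ (Σ g, Fin (c g)) → ℕ))
    (g := w) (by
      intro t
      rw [hM.cl, Fintype.sum_sum_type]
      simp only [Sum.elim_inl, Sum.elim_inr]
      rw [Fintype.sum_prod_type, Fintype.sum_sigma, Fintype.sum_sigma]
      simp only [sum_const, card_univ, Fintype.card_fin, Fintype.card_prod, smul_eq_mul]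
      congr 1
      refine sum_congr rfl fun i _ => ?_
      ring)
  have key := doubling' (b := fun p : Σ i, Fin (A i) => 2 * m p.1) (fun p => by
      have := hM.m1 p.1
      omega) (e := fun z : Σ g, Fin (c g) => m' z.1) (S := TF d) (fun u hu => by
      have h1 : u ∈ TZ d := by rw [← coe_TF]; exact mem_coe.2 hu
      exact ⟨h1.1, h1.2.1⟩) (by rw [coe_TF]; exact hsur) (by
      intro J k hk
      rw [coe_TF]
      exact hraise J k hk)
  have hq : (fun p : (Σ i, Fin (A i)) × (Fin 2 × Fin 2) => qv (2 * m p.1.1) p.2) =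
      fun p => m p.1.1 := by
    funext p
    unfold qv
    have := p.2.1.2
    omega
  rw [hq, coe_TF, card_TF] at key
  have hcond : cond (Sum.elim (fun p : (Σ i, Fin (A i)) × (Fin 2 × Fin 2) => m p.1.1)
      (fun z : Σ g, Fin (c g) => m' z.1)) = ∑ p, (w p + 1).choose 2 := by
    unfold Pool.Agent.TH603.Sur.cond
    rw [← Equiv.sum_comp τ fun p => (w p + 1).choose 2]
    exact sum_congr rfl fun x _ => by rw [hτ]
  rw [hcond] at key
  exact ⟨fun h => Emp_equiv τ hτ (key.1 h), fun h => Sur_equiv τ hτ (key.2 h)⟩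

/-- independence in all degrees from the critical ones -/
theorem sur_of_crit {n : ℕ} {w : Fin n → ℕ} (hpos : 0 < ∑ p, (w p + 1).choose 2)
    (h : ∀ d, d * (d + 1) < 2 * ∑ p, (w p + 1).choose 2 →
      2 * ∑ p, (w p + 1).choose 2 ≤ (d + 2) * (d + 3) → Crit w d) {d : ℕ}
    (hd : ∑ p, (w p + 1).choose 2 ≤ (d + 2).choose 2) : Sur w (TZ d) := by
  obtain ⟨T, hT⟩ : ∃ T, T = ∑ p, (w p + 1).choose 2 := ⟨_, rfl⟩
  rw [← hT] at h hpos hd
  have hc : ∀ d : ℕ, 2 * (d + 2).choose 2 = (d + 1) * (d + 2) := fun d =>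
    Pool.Agent.TH2.NU.two_choose (d + 1)
  have hex : ∃ e, T ≤ (e + 2).choose 2 := ⟨d, hd⟩
  obtain ⟨e, he⟩ : ∃ e, e = Nat.find hex := ⟨_, rfl⟩
  have h1 : T ≤ (e + 2).choose 2 := by rw [he]; exact Nat.find_spec hex
  have h2 : e ≤ d := by rw [he]; exact Nat.find_min' hex hd
  have h4 := hc e
  refine Sur.mono ((h e ?_ ?_).2 (by rw [← hT]; exact h1)) (TZ_mono h2)
  · rcases Nat.eq_zero_or_pos e with h0 | h0
    · rw [h0]; omega
    · have h3 := Nat.find_min hex (m := e - 1) (by omega)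
      have h5 := hc (e - 1)
      have e1 : e - 1 + 1 = e := by omega
      have e2 : e - 1 + 2 = e + 1 := by omega
      rw [e1, e2] at h5
      rw [e2] at h3
      omega
  · have : (e + 1) * (e + 2) ≤ (e + 2) * (e + 3) := by nlinarith
    omega

/-- four points of multiplicity `v` have `v` more conditions than one of multiplicity `2 v` -/
theorem choose_four (v : ℕ) : 4 * (v + 1).choose 2 = (2 * v + 1).choose 2 + v := by
  have h1 := Pool.Agent.TH2.NU.two_choose v
  have h2 := Pool.Agent.TH2.NU.two_choose (2 * v)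
  have e1 : v * (v + 1) = v * v + v := by ring
  have e2 : 2 * v * (2 * v + 1) = 4 * (v * v) + 2 * v := by ring
  omega

/-- **The critical degrees**, by induction. -/
theorem crit_iter (hSeq : StSeq) (hCor : StCorner) (hNod : StNodes) (k : ℕ) :
    ∀ {n : ℕ} {w : Fin n → ℕ} {μ : ℕ} {D : ℝ}, D = √(∑ p, (w p : ℝ) ^ 2) → 0 < n →
      (∀ p, 1 ≤ w p) → (∀ p, w p ≤ μ) → (n : ℝ) ≤ (2 * 4 ^ k + 1) * D →
      1000 * 4 ^ k * ((univ.image w).card : ℝ) * μ ≤ D → ∀ {d : ℕ},
      d * (d + 1) < 2 * ∑ p, (w p + 1).choose 2 →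
      2 * ∑ p, (w p + 1).choose 2 ≤ (d + 2) * (d + 3) → Crit w d := by
  classical
  induction k with
  | zero =>
    intro n w μ D hD hn0 hpos hμ hn h1 d hT1 hT2
    obtain ⟨s1, s, A, m, c, m', hM⟩ := exists_isModel hpos hμ
    have hn' : (n : ℝ) ≤ 3 * D := by
      have e : (2 * 4 ^ 0 + 1) * D = 3 * D := by norm_num
      rw [e] at hn
      exact hn
    have hN := hM.nums (D := D) (q := 1) hD hn0 hpos hμ le_rfl (by rw [mul_one]; exact hn') (by
      rw [pow_zero] at h1
      exact h1) hT1 hT2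
    exact crit_of_sur hM hN (base_sur hSeq hCor hNod hM hN hn')
  | succ k ih =>
    intro n w μ D hD hn0 hpos hμ hn h1 d hT1 hT2
    obtain ⟨s1, s, A, m, c, m', hM⟩ := exists_isModel hpos hμ
    obtain ⟨Q, hQ⟩ : ∃ Q : ℝ, Q = 4 ^ k := ⟨_, rfl⟩
    have hQ1 : 1 ≤ Q := by rw [hQ]; exact one_le_pow₀ (by norm_num)
    have e4 : (4 : ℝ) ^ (k + 1) = 4 * Q := by rw [hQ]; ring
    rw [e4] at hn h1
    have hD0 : 0 ≤ D := by rw [hD]; exact Real.sqrt_nonneg _
    have hN := hM.nums (D := D) (q := 4 * Q) hD hn0 hpos hμ (by linarith) (by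
      have : 1 * D ≤ Q * D := mul_le_mul_of_nonneg_right hQ1 hD0
      have e : (2 * (4 * Q) + 1) * D = 8 * (Q * D) + D := by ring
      have e2 : 3 * (4 * Q) * D = 12 * (Q * D) := by ring
      rw [e] at hn
      rw [e2]
      linarith) h1 hT1 hT2
    refine crit_of_sur hM hN ?_
    rw [← hM.cs] at h1
    -- the vector of the clusters
    obtain ⟨f, hf⟩ : ∃ f : (Σ i, Fin (A i)) ⊕ (Σ g, Fin (c g)) → ℕ,
      f = Sum.elim (fun p : Σ i, Fin (A i) => 2 * m p.1) (fun z : Σ g, Fin (c g) => m' z.1) :=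
      ⟨_, rfl⟩
    rw [← hf]
    obtain ⟨n', hn'⟩ : ∃ n', n' = Fintype.card ((Σ i, Fin (A i)) ⊕ (Σ g, Fin (c g))) := ⟨_, rfl⟩
    obtain ⟨τ⟩ : Nonempty (((Σ i, Fin (A i)) ⊕ (Σ g, Fin (c g))) ≃ Fin n') :=
      ⟨Fintype.equivFinOfCardEq hn'.symm⟩
    obtain ⟨w', hw'⟩ : ∃ w' : Fin n' → ℕ, w' = fun p => f (τ.symm p) := ⟨_, rfl⟩
    have hsum : ∀ t : ℕ → ℕ, ∑ p, t (w' p) = ∑ i, A i * t (2 * m i) + ∑ g, c g * t (m' g) := by
      intro t
      rw [hw', Equiv.sum_comp τ.symm fun x => t (f x), hf, Fintype.sum_sum_type]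
      simp only [Sum.elim_inl, Sum.elim_inr]
      rw [Fintype.sum_sigma, Fintype.sum_sigma]
      simp only [sum_const, card_univ, Fintype.card_fin, smul_eq_mul]
    have hsumR : ∀ t : ℕ → ℕ, ∑ p, (t (w' p) : ℝ) = ∑ i, (A i : ℝ) * t (2 * m i) +
        ∑ g, (c g : ℝ) * t (m' g) := by
      intro t
      exact_mod_cast hsum t
    obtain ⟨hμr, hs1', hD0', hD2, hL0, hT1', hT2', hsμ, b2, b3, b5, b6, b7, b8, hLD, hE, hC, hsA,
      hsL, hsD, hDL⟩ := hN
    have hμ0 : (0 : ℝ) < μ := by linarith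
    have hn'e : (n' : ℝ) = ∑ i, (A i : ℝ) + ∑ g, (c g : ℝ) := by
      have e := hsumR fun _ => 1
      simp only [Nat.cast_one, mul_one, sum_const, card_univ, Fintype.card_fin,
        nsmul_eq_mul] at e
      exact e
    have hA4 : ∑ i, 4 * (A i : ℝ) = 4 * ∑ i, (A i : ℝ) := by rw [mul_sum]
    have hL4 : ∑ i, 4 * (A i : ℝ) * m i = 4 * ∑ i, (A i : ℝ) * m i := by
      rw [mul_sum]
      exact sum_congr rfl fun i _ => by ring
    rw [hA4] at hsA
    rw [hL4] at hsL
    have ht : (d : ℝ) + 2 ≤ ∑ i, (A i : ℝ) * m i := by linarith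
    have htN : d + 2 ≤ ∑ i, A i * m i := by exact_mod_cast ht
    have hn'0 : 0 < n' := by
      have hA0 : 0 ≤ ∑ i, (A i : ℝ) := sum_nonneg fun i _ => Nat.cast_nonneg _
      have hC0 : 0 ≤ ∑ g, (c g : ℝ) := sum_nonneg fun g _ => Nat.cast_nonneg _
      have h0 : (0 : ℝ) < n := by exact_mod_cast hn0
      have : (0 : ℝ) < n' := by
        rw [hn'e]
        linarith
      exact_mod_cast this
    have hD' : D = √(∑ p, (w' p : ℝ) ^ 2) := by
      rw [hD, ← hD2, ← hsD]
      congr 1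
      have e := hsumR fun y => y ^ 2
      push_cast at e
      rw [e]
      congr 1
      exact sum_congr rfl fun i _ => by ring
    have hTT : ∑ p, (w p + 1).choose 2 = ∑ p, (w' p + 1).choose 2 + ∑ i, A i * m i := by
      rw [hM.cl fun v => (v + 1).choose 2, hsum fun v => (v + 1).choose 2, add_right_comm]
      congr 1
      rw [← sum_add_distrib]
      refine sum_congr rfl fun i _ => ?_
      have e := choose_four (m i)
      calc 4 * A i * (m i + 1).choose 2 = A i * (4 * (m i + 1).choose 2) := by ring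
        _ = A i * ((2 * m i + 1).choose 2 + m i) := by rw [e]
        _ = A i * (2 * m i + 1).choose 2 + A i * m i := by ring
    have hc2 : 2 * (d + 2).choose 2 = (d + 1) * (d + 2) := Pool.Agent.TH2.NU.two_choose (d + 1)
    have hT' : ∑ p, (w' p + 1).choose 2 ≤ (d + 2).choose 2 := by
      have e : (d + 2) * (d + 3) = (d + 1) * (d + 2) + 2 * (d + 2) := by ring
      omega
    have hpos' : ∀ p, 1 ≤ w' p := by
      intro p
      rw [hw', hf]
      simp only
      rcases τ.symm p with z | z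
      · have := hM.m1 z.1
        simp only [Sum.elim_inl]
        omega
      · exact hM.m1' z.1
    have hμ' : ∀ p, w' p ≤ 2 * μ := by
      intro p
      rw [hw', hf]
      simp only
      rcases τ.symm p with z | z
      · have := hM.mμ z.1
        simp only [Sum.elim_inl]
        omega
      · have := hM.mμ' z.1
        simp only [Sum.elim_inr]
        omega
    have hcard : (univ.image w').card ≤ 2 * s := by
      have g1 : univ.image w' ⊆ (univ.image fun i => 2 * m i) ∪ univ.image m' := by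
        intro v hv
        obtain ⟨p, -, hp⟩ := mem_image.1 hv
        rw [hw', hf] at hp
        simp only at hp
        rw [mem_union]
        rcases h5 : τ.symm p with z | z
        · rw [h5, Sum.elim_inl] at hp
          exact Or.inl (mem_image.2 ⟨z.1, mem_univ _, hp⟩)
        · rw [h5, Sum.elim_inr] at hp
          exact Or.inr (mem_image.2 ⟨z.1, mem_univ _, hp⟩)
      have g2 := (card_le_card g1).trans (card_union_le _ _)
      have g3 : (univ.image fun i => 2 * m i).card ≤ s1 := card_image_le.trans (by simp)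
      have g4 : (univ.image m').card ≤ s := card_image_le.trans (by simp)
      have g5 := hM.rs
      omega
    have hcardR : ((univ.image w').card : ℝ) ≤ 2 * s := by exact_mod_cast hcard
    have hpos2 : 0 < ∑ p, (w' p + 1).choose 2 := by
      have g1 : (w' ⟨0, hn'0⟩ + 1).choose 2 ≤ ∑ p, (w' p + 1).choose 2 :=
        single_le_sum (f := fun p => (w' p + 1).choose 2) (fun _ _ => Nat.zero_le _) (mem_univ _)
      have g2 : 0 < (w' ⟨0, hn'0⟩ + 1).choose 2 := Nat.choose_pos (by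
        have := hpos' ⟨0, hn'0⟩
        omega)
      omega
    have hsur' : Sur w' (TZ d) := by
      refine sur_of_crit hpos2 (fun e he1 he2 => ih hD' hn'0 hpos' hμ' ?_ ?_ he1 he2) hT'
      · rw [← hQ]
        have e : (2 * (4 * Q) + 1) * D = 8 * (Q * D) + D := by ring
        have e2 : (2 * Q + 1) * D = 2 * (Q * D) + D := by ring
        rw [e] at hn
        rw [e2]
        have hC4 : ∑ g, (c g : ℝ) ≤ 15 * (s * μ) := hC
        have e3 : 1000 * (s : ℝ) * μ = 1000 * (s * μ) := by ring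
        rw [e3] at hsμ
        linarith
      · rw [← hQ]
        push_cast
        refine le_trans ?_ h1
        have g1 : 1000 * Q * ((univ.image w').card : ℝ) * (2 * μ) ≤
            1000 * Q * (2 * s) * (2 * μ) := by
          apply mul_le_mul_of_nonneg_right _ (by positivity)
          exact mul_le_mul_of_nonneg_left hcardR (by positivity)
        have e : 1000 * Q * (2 * s) * (2 * μ) = 1000 * (4 * Q) * (s : ℝ) * μ := by ring
        rw [← e]
        exact g1
    exact Sur_equiv τ.symm (fun p => by rw [hw']) hsur'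

end Pool.Agent.Y205.FW
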