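import Pool.Agent.H15.G.R_seed8.Y205.FW.Donor
import Pool.Agent.H15.G.R_seed8.Y205.MD.Cls
import Pool.Agent.H15.G.R_seed8.TH146.MN.Few2

/-! The window of independence for arbitrary vectors with few different multiplicities. -/

set_option autoImplicit false

namespace Pool.Agent.Y205.FW

open Finset Pool.Agent.TH176.Nag Pool.Agent.TH603.Sur Pool.Agent.TH745.MN
open Pool.Agent.Y205.MD
open Pool.Agent.TH146.MN (assign)

/-- **The window of independence.** -/
theorem Sur_win (hSeq : StSeq) (hCor : StCorner) (hNod : StNodes) {ι : Type} [Fintype ι]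
    {F : ι → ℕ} {K d : ℕ} {H : ℝ} (hK : 2 ≤ K) (hq : (univ.image F).card + 1 ≤ K ^ 2)
    (hKd : K ^ 2 + 2 ≤ K * (d + 3)) (hH : H = ((d : ℝ) + 3 - 1 / (2 * K)) / (2 * K))
    (hH1 : 2 ≤ H) (hF : ∀ i, (F i : ℝ) + 1 ≤ 9 / 20 * H)
    (hmass : 6 * ((univ.image F).card : ℝ) * H ^ 2 ≤ ∑ i, ((F i : ℝ) + 1) ^ 2)
    (hcost : ∑ i, ((F i : ℝ) + 1) ^ 2 + ((univ.image F).card : ℝ) * H < 4 * K ^ 2 * H ^ 2) :
    Sur F (TZ d) := by
  classical
  have hH0 : 0 < H := by linarith
  have hHH : 2 * H ≤ H * H := mul_le_mul_of_nonneg_right hH1 hH0.le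
  obtain ⟨V, hV⟩ : ∃ V : Finset ℕ, V = univ.image F := ⟨_, rfl⟩
  obtain ⟨gr, hgr⟩ : ∃ gr : ι → {v // v ∈ V}, ∀ i, ((gr i : ℕ)) = F i :=
    ⟨fun i => ⟨F i, by rw [hV]; exact mem_image_of_mem _ (mem_univ _)⟩, fun _ => rfl⟩
  have hsurj : ∀ l : {v // v ∈ V}, ∃ i, gr i = l := by
    rintro ⟨l, hl⟩
    have h := hl
    rw [hV] at h
    obtain ⟨i, -, hi⟩ := mem_image.1 h
    exact ⟨i, Subtype.ext (by rw [hgr, hi])⟩
  obtain ⟨y, hy⟩ : ∃ y : {v // v ∈ V} → ℝ, ∀ l, y l = (l : ℕ) + 1 := ⟨_, fun _ => rfl⟩
  have hy0 : ∀ l, 0 < y l := fun l => by rw [hy]; positivity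
  have hyH : ∀ l, y l ≤ 9 / 20 * H := by
    intro l
    obtain ⟨i, hi⟩ := hsurj l
    rw [hy, ← hi, hgr]
    exact hF i
  have hyi : ∀ i, y (gr i) = F i + 1 := fun i => by rw [hy, hgr]
  obtain ⟨M, hM⟩ : ∃ M : ℝ, M = 3 / 5 * H := ⟨_, rfl⟩
  have hM0 : 0 < M := by rw [hM]; positivity
  obtain ⟨q, hqd⟩ : ∃ q, q = (univ.image F).card := ⟨_, rfl⟩
  rw [← hqd] at hq hmass hcost
  have hcq : Fintype.card {v // v ∈ V} = q := by rw [hqd, ← hV, Fintype.card_coe]
  obtain ⟨R, hR⟩ : ∃ R : Finset {v // v ∈ V}, R = univ.filter fun l =>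
      ((univ.filter fun i => gr i = l).card : ℝ) * y l ≤ 2 * M := ⟨_, rfl⟩
  have hRmem : ∀ l, l ∈ R ↔ ((univ.filter fun i => gr i = l).card : ℝ) * y l ≤ 2 * M := by
    intro l; rw [hR]; simp
  obtain ⟨R', hR'⟩ : ∃ R' : Finset {v // v ∈ V}, R' = univ.filter fun l =>
      ((univ.filter fun i => gr i = l).card : ℝ) * y l ≤ H := ⟨_, rfl⟩
  have hR'mem : ∀ l, l ∈ R' ↔ ((univ.filter fun i => gr i = l).card : ℝ) * y l ≤ H := by
    intro l; rw [hR']; simp
  have hRR' : R' ⊆ R := by
    intro l hl
    rw [hRmem, hM]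
    have := (hR'mem l).1 hl
    linarith
  have hFr : ∀ f, f ∉ R → 2 * M < ((univ.filter fun i => gr i = f).card : ℝ) * y f := by
    intro f hf
    rw [hRmem] at hf
    exact not_le.1 hf
  have hcardR : ((univ \ R).card : ℝ) + R.card = q := by
    have h1 := card_sdiff_add_card_eq_card (subset_univ R)
    rw [card_univ, hcq] at h1
    exact_mod_cast h1
  have hyM : ∀ l, y l ≤ M := fun l => by rw [hM]; linarith [hyH l]
  have hrareR : ∑ i with gr i ∈ R, y (gr i) ^ 2 ≤ 2 * M ^ 2 * R.card := by
    rw [← sum_fiberwise_of_maps_to (g := gr) (t := R) (fun i hi => (mem_filter.1 hi).2)]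
    calc ∑ l ∈ R, ∑ i ∈ (univ.filter fun i => gr i ∈ R) with gr i = l, y (gr i) ^ 2
        ≤ ∑ l ∈ R, 2 * M ^ 2 := by
          refine sum_le_sum fun l hl => ?_
          have h1 := (hRmem l).1 hl
          calc ∑ i ∈ (univ.filter fun i => gr i ∈ R) with gr i = l, y (gr i) ^ 2
              = ∑ i ∈ (univ.filter fun i => gr i ∈ R) with gr i = l, y l ^ 2 :=
                sum_congr rfl fun i hi => by rw [(mem_filter.1 hi).2]
            _ ≤ ((univ.filter fun i => gr i = l).card : ℝ) * y l ^ 2 := by
                rw [sum_const, nsmul_eq_mul]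
                refine mul_le_mul_of_nonneg_right ?_ (sq_nonneg _)
                have : ((univ.filter fun i => gr i ∈ R).filter fun i => gr i = l).card ≤
                    (univ.filter fun i => gr i = l).card :=
                  card_le_card fun i hi => mem_filter.2 ⟨mem_univ _, (mem_filter.1 hi).2⟩
                exact_mod_cast this
            _ = ((univ.filter fun i => gr i = l).card : ℝ) * y l * y l := by ring
            _ ≤ 2 * M * M := mul_le_mul h1 (hyM l) (hy0 l).le (by positivity)
            _ = 2 * M ^ 2 := by ring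
      _ = 2 * M ^ 2 * R.card := by rw [sum_const, nsmul_eq_mul]; ring
  obtain ⟨S2, hS2⟩ : ∃ S2 : ℝ, S2 = ∑ i, y (gr i) ^ 2 := ⟨_, rfl⟩
  have hS2' : S2 = ∑ i, ((F i : ℝ) + 1) ^ 2 := by
    rw [hS2]
    exact sum_congr rfl fun i _ => by rw [hyi]
  rw [← hS2'] at hmass hcost
  have hsplit : ∑ i with gr i ∈ R, y (gr i) ^ 2 + ∑ i with gr i ∉ R, y (gr i) ^ 2 = S2 := by
    rw [hS2]; exact sum_filter_add_sum_filter_not _ _ _
  have hM2 : M ^ 2 = 9 / 25 * H ^ 2 := by rw [hM]; ring
  have hA : 14 * M ^ 2 * ((univ \ R).card : ℝ) + 7 * M ^ 2 * (R.card : ℝ) ≤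
      ∑ i with gr i ∉ R, y (gr i) ^ 2 := by
    have h0 : (0 : ℝ) ≤ R.card := Nat.cast_nonneg _
    have h1 : (0 : ℝ) ≤ (univ \ R).card := Nat.cast_nonneg _
    have h2 : 16 * M ^ 2 * (((univ \ R).card : ℝ) + R.card) ≤ S2 := by
      rw [hcardR, hM2]
      have : (0 : ℝ) ≤ q * H ^ 2 := by positivity
      linarith
    have h3 : 0 ≤ M ^ 2 * ((univ \ R).card : ℝ) := by positivity
    have h4 : 0 ≤ M ^ 2 * (R.card : ℝ) := by positivity
    linarith
  obtain ⟨φ, h1, h2, h3, h4, -⟩ := assign gr y hM0 hy0 hyM R hFr hA R' hRR'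
  obtain ⟨σ, hσ⟩ : ∃ σ : {v // v ∈ V} → ℝ, ∀ l, σ l =
      (∑ i : {i // φ i = l}, y (gr i.1) ^ 2 + if l ∈ R' then H else 0) / H ^ 2 :=
    ⟨_, fun _ => rfl⟩
  have key := hNod (J := {v // v ∈ V}) (K := K) (d := d) hK (by rw [hcq]; exact hq) hKd
    (κ := fun l => {i // φ i = l}) (w := fun z => F z.2.1) (σ := σ) (by
      intro l τ hτ
      rw [← hH]
      by_cases hl : l ∈ R'
      · -- a rare group with donors
        obtain ⟨f, hfR, h5, h6⟩ := h3 l hl
        have hlR := hRR' hl
        have hfl : f ≠ l := fun h => hfR (h ▸ hlR)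
        obtain ⟨k, hk⟩ : ∃ k, k = (univ.filter fun i => gr i = l).card := ⟨_, rfl⟩
        obtain ⟨N, hN⟩ : ∃ N, N = (univ.filter fun i => φ i = l ∧ gr i = f).card := ⟨_, rfl⟩
        rw [← hN] at h6
        have hkl := (hR'mem l).1 hl
        rw [← hk] at hkl
        have hunion : (univ.filter fun i => φ i = l) =
            (univ.filter fun i => gr i = l) ∪ (univ.filter fun i => φ i = l ∧ gr i = f) := by
          ext i
          simp only [mem_filter, mem_univ, true_and, mem_union]
          constructor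
          · intro hi
            rcases h5 i hi with h | h
            · exact Or.inl h
            · exact Or.inr ⟨hi, h⟩
          · rintro (h | h)
            · rw [h1 i (by rw [h]; exact hlR), h]
            · exact h.1
        have hdisj : Disjoint (univ.filter fun i => gr i = l)
            (univ.filter fun i => φ i = l ∧ gr i = f) := by
          rw [disjoint_left]
          intro i hi hi'
          rw [mem_filter] at hi hi'
          exact hfl (hi'.2.2.symm.trans hi.2)
        have hsum : ∀ t : ℕ → ℕ, ∑ i : {i // φ i = l}, t (F i.1) = k * t l + N * t f := by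
          intro t
          rw [← sum_subtype (univ.filter fun i => φ i = l) (fun i => by simp) (fun i => t (F i)),
            hunion, sum_union hdisj]
          congr 1
          · rw [sum_congr rfl fun i hi => by rw [← hgr, (mem_filter.1 hi).2], sum_const,
              smul_eq_mul, hk]
          · rw [sum_congr rfl fun i hi => by rw [← hgr, (mem_filter.1 hi).2.2], sum_const,
              smul_eq_mul, hN]
        have hk1 : 1 ≤ k := by
          obtain ⟨i, hi⟩ := hsurj l
          rw [hk]
          exact card_pos.2 ⟨i, mem_filter.2 ⟨mem_univ _, hi⟩⟩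
        have hyl := hy l
        have hyf := hy f
        have hylH := hyH l
        have hyfH := hyH f
        rw [hyl] at hkl hylH
        rw [hyf] at h6 hyfH
        rw [hM2] at h6
        obtain ⟨U, hU⟩ : ∃ U : ℝ, U = ((f : ℕ) : ℝ) + 1 := ⟨_, rfl⟩
        rw [← hU] at h6 hyfH
        have hU1 : 1 ≤ U := by rw [hU]; linarith [show (0 : ℝ) ≤ ((f : ℕ) : ℝ) from Nat.cast_nonneg _]
        obtain ⟨ρ, hρ⟩ : ∃ ρ : ℝ, ρ = (N * U ^ 2 + H) / H ^ 2 := ⟨_, rfl⟩
        have hρH : ρ * H ^ 2 = N * U ^ 2 + H := by rw [hρ]; field_simp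
        have hHsq : 0 < H ^ 2 := by positivity
        have hNr0 : (0 : ℝ) ≤ N := Nat.cast_nonneg _
        have hU2 : U ^ 2 ≤ 81 / 400 * H ^ 2 := by
          have := pow_le_pow_left₀ (by linarith : (0 : ℝ) ≤ U) hyfH 2
          have e : (9 / 20 * H) ^ 2 = 81 / 400 * H ^ 2 := by ring
          linarith
        have hN11 : 10 ≤ (N : ℝ) := by
          by_contra hcon
          push Not at hcon
          have g1 : (N : ℝ) * U ^ 2 ≤ 10 * (81 / 400 * H ^ 2) :=
            mul_le_mul hcon.le hU2 (sq_nonneg _) (by norm_num)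
          linarith
        have hr := NOK_rare hSeq hCor (N := N) (u := f) (k := k) (l := l) (H := H) (ρ := ρ) hk1
          (by linarith) (by exact hkl) (by rw [← hU]; exact hρH) (by
            have : 2 * H ^ 2 ≤ ρ * H ^ 2 := by rw [hρH]; linarith
            exact le_of_mul_le_mul_right this hHsq) (by
            have : 4 * ρ * H ^ 2 ≤ N * H ^ 2 := by
              have e : 4 * ρ * H ^ 2 = 4 * (ρ * H ^ 2) := by ring
              rw [e, hρH]
              have g1 : (N : ℝ) * U ^ 2 ≤ N * (81 / 400 * H ^ 2) :=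
                mul_le_mul_of_nonneg_left hU2 hNr0
              have g2 : 10 * (H ^ 2) ≤ N * H ^ 2 := mul_le_mul_of_nonneg_right hN11 hHsq.le
              have g3 : H * H = H ^ 2 := by ring
              rw [g3] at hHH
              linarith
            exact le_of_mul_le_mul_right this hHsq) (by linarith) (τ := τ) (by
            refine lt_of_le_of_lt (le_of_eq ?_) hτ
            rw [hσ, if_pos hl, hρ, ← add_div]
            congr 1
            have e1 : ∑ i : {i // φ i = l}, y (gr i.1) ^ 2 =
                k * ((l : ℕ) + 1 : ℝ) ^ 2 + N * U ^ 2 := by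
              have e2 := hsum fun x => (x + 1) ^ 2
              have e3 : ((∑ i : {i // φ i = l}, (F i.1 + 1) ^ 2 : ℕ) : ℝ) =
                  ((k * ((l : ℕ) + 1) ^ 2 + N * ((f : ℕ) + 1) ^ 2 : ℕ) : ℝ) := by rw [e2]
              push_cast at e3
              rw [hU, ← e3]
              exact sum_congr rfl fun i _ => by rw [hyi]
            rw [e1]
            ring)
        obtain ⟨τ', hτ'⟩ := exists_equiv_of_sum (f := (Sum.elim (fun _ : Fin k => (l : ℕ))
          (fun _ : Fin N => (f : ℕ)) : Fin k ⊕ Fin N → ℕ)) (g := fun i : {i // φ i = l} => F i.1)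
          (by
            intro t
            rw [hsum, Fintype.sum_sum_type]
            simp only [Sum.elim_inl, Sum.elim_inr, sum_const, card_univ, Fintype.card_fin,
              smul_eq_mul])
        exact hr.equiv τ' hτ'
      · -- a block
        have hall : ∀ i : {i // φ i = l}, gr i.1 = l := fun i => by
          rcases h2 i.1 with h | h
          · rw [← h]; exact i.2
          · rw [i.2] at h
            exact absurd h hl
        obtain ⟨N, hN⟩ : ∃ N, N = Fintype.card {i // φ i = l} := ⟨_, rfl⟩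
        have hNc : N = (univ.filter fun i => φ i = l).card := by
          rw [hN]; exact Fintype.card_subtype _
        have hNy : H ≤ N * y l := by
          by_cases hlR : l ∈ R
          · have e : (univ.filter fun i => φ i = l) = univ.filter fun i => gr i = l := by
              ext i
              simp only [mem_filter, mem_univ, true_and]
              constructor
              · intro hi
                exact hall ⟨i, hi⟩
              · intro hi
                rw [h1 i (by rw [hi]; exact hlR), hi]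
            rw [hNc, e]
            rw [hR'mem] at hl
            exact (not_le.1 hl).le
          · have := h4 l hlR
            rw [← hNc, hM] at this
            linarith
        have hylH := hyH l
        rw [hy] at hNy hylH
        have hb := NOK_block (h := H) (N := N) (u := l) (by linarith) (by exact hNy)
          (by linarith) (τ := τ) (by
            refine lt_of_le_of_lt (le_of_eq ?_) hτ
            rw [hσ, if_neg hl, add_zero, sum_congr rfl fun i _ => by rw [hall i, hy], sum_const,
              card_univ, nsmul_eq_mul, ← hN])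
        have e0 : Nonempty (Fin N ≃ {i // φ i = l}) := ⟨(Fintype.equivFinOfCardEq hN.symm).symm⟩
        obtain ⟨e0⟩ := e0
        refine hb.equiv e0 fun i => ?_
        have := hall (e0 i)
        simp only
        rw [← hgr, this]) (by
      simp only [hσ]
      rw [← sum_div, div_lt_iff₀ (by positivity), sum_add_distrib]
      have e1 : ∑ l, ∑ i : {i // φ i = l}, y (gr i.1) ^ 2 = S2 := by
        rw [hS2, ← sum_fiberwise univ φ]
        refine sum_congr rfl fun l _ => ?_
        exact (sum_subtype (univ.filter fun i => φ i = l) (fun i => by simp)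
          (fun i => y (gr i) ^ 2)).symm
      have e2 : ∑ l : {v // v ∈ V}, (if l ∈ R' then H else 0) ≤ q * H := by
        have : ∑ l : {v // v ∈ V}, (if l ∈ R' then H else 0) ≤
            ∑ _l : {v // v ∈ V}, H :=
          sum_le_sum fun l _ => by split_ifs <;> linarith
        rwa [sum_const, card_univ, hcq, nsmul_eq_mul] at this
      rw [e1]
      linarith)
  exact Sur_equiv (Equiv.sigmaFiberEquiv φ) (fun z => rfl) key

end Pool.Agent.Y205.FW
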